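import Pool.Agent.N396.ZK.Stm

/-!
# Selection of `k` columns by averaging
-/

set_option autoImplicit false

namespace Pool.Agent.N427.ZK

open Finset Classical Pool.Agent.N396.ZK

theorem choose_ge {n d k : ℕ} {e : ℝ} (he : 0 ≤ e) (hn : 0 < n) (hd : e + k ≤ (d : ℝ)) :
    (e / n) ^ k * (n.choose k : ℝ) ≤ (d.choose k : ℝ) := by
  have hkd : k ≤ d := by
    have : (k : ℝ) ≤ d := by linarith
    exact_mod_cast this
  have hn' : (0 : ℝ) < n := by exact_mod_cast hn
  have h1 : ((k.factorial : ℕ) : ℝ) * (d.choose k : ℝ) = (d.descFactorial k : ℝ) := by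
    rw [Nat.descFactorial_eq_factorial_mul_choose]
    push_cast
    rfl
  have h2 : ((k.factorial : ℕ) : ℝ) * (n.choose k : ℝ) = (n.descFactorial k : ℝ) := by
    rw [Nat.descFactorial_eq_factorial_mul_choose]
    push_cast
    rfl
  have h3 : (n.descFactorial k : ℝ) ≤ (n : ℝ) ^ k := by
    exact_mod_cast Nat.descFactorial_le_pow n k
  have h4 : e ^ k ≤ (d.descFactorial k : ℝ) := by
    have h5 : (((d + 1 - k) ^ k : ℕ) : ℝ) ≤ (d.descFactorial k : ℝ) := by
      exact_mod_cast Nat.pow_sub_le_descFactorial d k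
    refine le_trans ?_ h5
    rw [Nat.cast_pow]
    have h6 : ((d + 1 - k : ℕ) : ℝ) = d + 1 - k := by
      rw [Nat.cast_sub (by omega)]
      push_cast
      rfl
    rw [h6]
    apply pow_le_pow_left₀ he
    linarith
  have hk : (0 : ℝ) < ((k.factorial : ℕ) : ℝ) := by exact_mod_cast Nat.factorial_pos k
  refine le_of_mul_le_mul_left ?_ hk
  rw [h1]
  calc ((k.factorial : ℕ) : ℝ) * ((e / n) ^ k * (n.choose k : ℝ))
      = (e / n) ^ k * (n.descFactorial k : ℝ) := by rw [← h2]; ring
    _ ≤ (e / n) ^ k * (n : ℝ) ^ k := by gcongr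
    _ = e ^ k := by rw [← mul_pow, div_mul_cancel₀ _ hn'.ne']
    _ ≤ _ := h4

theorem sel : StmSel := by
  intro α β _ R W k e he hn hk hrow
  by_contra hno
  push Not at hno
  set n := Fintype.card β with hn'
  have hdc : ∑ B ∈ powersetCard k (univ : Finset β), (rws R W B).card =
      ∑ x ∈ W, ((row R univ x).card).choose k := by
    have h1 : ∀ B, (rws R W B).card = ∑ x ∈ W, if B ⊆ row R univ x then 1 else 0 := by
      intro B
      rw [rws, Finset.card_filter]
      refine Finset.sum_congr rfl fun x _ => ?_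
      congr 1
      simp only [eq_iff_iff]
      constructor
      · intro h y hy
        simpa [row] using h y hy
      · intro h y hy
        simpa [row] using h hy
    simp only [h1]
    rw [Finset.sum_comm]
    refine Finset.sum_congr rfl fun x _ => ?_
    rw [← Finset.card_filter, ← Finset.card_powersetCard]
    congr 1
    ext B
    simp only [mem_filter, mem_powersetCard]
    constructor
    · rintro ⟨⟨_, h2⟩, h3⟩
      exact ⟨h3, h2⟩
    · rintro ⟨h2, h3⟩
      exact ⟨⟨Finset.subset_univ _, h3⟩, h2⟩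
  have hne : (powersetCard k (univ : Finset β)).Nonempty := by
    rw [powersetCard_nonempty, Finset.card_univ]
    exact hk
  have h1 : ∑ B ∈ powersetCard k (univ : Finset β), ((rws R W B).card : ℝ) <
      ∑ _B ∈ powersetCard k (univ : Finset β), (W.card : ℝ) * (e / n) ^ k :=
    Finset.sum_lt_sum_of_nonempty hne fun B hB => hno B (mem_powersetCard.1 hB).2
  rw [Finset.sum_const, card_powersetCard, Finset.card_univ, nsmul_eq_mul] at h1
  have h2 : ∑ B ∈ powersetCard k (univ : Finset β), ((rws R W B).card : ℝ) =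
      ∑ x ∈ W, (((row R univ x).card).choose k : ℝ) := by exact_mod_cast hdc
  have h3 : ∑ _x ∈ W, (e / n) ^ k * (n.choose k : ℝ) ≤
      ∑ x ∈ W, (((row R univ x).card).choose k : ℝ) :=
    Finset.sum_le_sum fun x hx => choose_ge he hn (hrow x hx)
  rw [Finset.sum_const, nsmul_eq_mul] at h3
  rw [h2] at h1
  have h4 : (n.choose k : ℝ) * ((W.card : ℝ) * (e / n) ^ k) =
      (W.card : ℝ) * ((e / n) ^ k * (n.choose k : ℝ)) := by ring
  rw [← hn', h4] at h1
  linarith

end Pool.Agent.N427.ZK
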